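import Pool.Agent.Lib.MP_463376_co.IFinal

/-!
# MP_463376_co: positivity of Macdonald cumulants (higher-order Macdonald positivity), full answer

`Kqt` is the field of rational functions in `q, t` over the rationals, `Sym Kqt` the ring of symmetric
functions over it (polynomials in the power sums), `schur` the Schur functions (Jacobi-Trudi),
`IsModMac mu H` the three defining properties of the modified Macdonald polynomial of `mu`, and
`kappa H lam` the normalised cumulant of the polynomials `H (⊕ lam b)`.
-/

namespace Pool.Agent.Results.MP_463376_co.CumulantPositivity

open MvPolynomial Pool.Agent.Lib.MP_463376_co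

/-- Schur functions are linearly independent; the modified Macdonald polynomials exist and are
unique; and for all `r ≥ 1` and all partitions `lam 0, ..., lam (r-1)` the normalised cumulant is a
linear combination of Schur functions with coefficients in `ℕ[q,t]`. -/
theorem result : LinearIndependent Kqt (schur Kqt) ∧
    ∃ H : YoungDiagram → Sym Kqt, (∀ mu, IsModMac mu (H mu)) ∧
      (∀ mu H', IsModMac mu H' → H' = H mu) ∧
      ∀ (r : ℕ) (lam : Fin r → YoungDiagram), 1 ≤ r →
        ∃ c : YoungDiagram →₀ MvPolynomial (Fin 2) ℕ,
          kappa H lam = ∑ mu ∈ c.support,
            C (toK (MvPolynomial.map (Nat.castRingHom ℚ) (c mu))) * schur Kqt mu :=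
  statement_proof

end Pool.Agent.Results.MP_463376_co.CumulantPositivity
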